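import Pool.Agent.H441.FT.Gen
import Pool.Graph.R_pool_sql_team_seeded_63374d34.Results.MP_45e720_ag.SmoothHypersurfacesSuffice

/-!
# Maps from complex tori and hyperbolicity: systems of diagonal equations suffice

MP_45e720_ag, Q1: a projective manifold is hyperbolic if all holomorphic maps from complex tori to it
are constant. We consider the following two types of systems of equations.

* `Diagonal m D`, where `m ≥ 2` is fixed (for example `m = 2`) and `D` is a symmetric set of complex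
  numbers which contains `1` and generates the vector space `ℂ` over `ℚ` (for example `D = ℂ`, or the
  set of all complex numbers of absolute value `1`): `Y : ∑ j, c_ij y_j ^ m = 0`, `i < k`, with
  coefficients in `D ∪ {0}`;
* `FourTerms`: intersections of diagonal quadrics with at most four terms, of the form
  `y_p ^ 2 + y_q ^ 2 = 2 y_s ^ 2 + 2 y_t ^ 2` or `y_p ^ 2 - y_q ^ 2 = a (y_s ^ 2 - y_t ^ 2)` (here `m = 2`).

**Theorem 1.** Let `X` be any projective variety over `ℂ` in `P^n` (any dimension, any singularities) and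
`Z` a closed subset. There are a system `Y` of the given type in `P^N`, forms `φ_0, …, φ_N` of the same
degree, among them all monomials of this degree, so that `φ : P^n → P^N` is a closed embedding, and a
set `J` of indices such that `X = φ⁻¹(Y)`, `Z = φ⁻¹({y_j = 0, j ∈ J})`, and every nonconstant
holomorphic map from any complex normed space `E` to `Y` is of the form `(ζ_0 φ_0(x) : … : ζ_N φ_N(x))`
with constants `ζ_j ^ m = 1` and a holomorphic map `x` from `E` to `X` with the same periods. Hence `Y`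
is hyperbolic if and only if `X` is, and all holomorphic maps from complex tori to `Y` are constant if
and only if this holds for `X`.

Let `𝒳` be the class of all projective manifolds, or any class of projective varieties which contains
all smooth hypersurfaces in `P^N`, `N ≥ 3`.

**Theorem 2.** Q1 holds for all `X ∈ 𝒳` if and only if it holds for all `Y` of the given type.

**Theorem 3.** The strong form of Q1 (for all closed sets `Z`: all nonconstant entire curves in `X`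
lie in `Z` if and only if the images of all nonconstant holomorphic maps from tori to `X` lie in `Z`;
i.e. the entire curves and the tori have the same Zariski closure) holds for all `X ∈ 𝒳` if and only
if it holds for all systems `Y` of the given type and all coordinate subspaces
`Z = {y_j = 0, j ∈ J}`.

Proof. See `Pool/Agent/H441/UA`, `Pool/Agent/H441/FT`. The `m`-th powers of the coordinates of a point of
`Y` are the values of a linear functional on the `m`-th powers of many linear forms in the monomials.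
On the lines in `E` a theorem of Büchi type for meromorphic functions of the library (`pow_Minf`)
shows that the functional is the evaluation at a point of the Veronese image of `X`, so every
point of the image is in one of the copies of `X`; by the identity theorem the copy does not
change. The step from projective varieties to smooth hypersurfaces in Theorems 2 and 3 is the library
theorem `SmoothHypersurfacesSuffice`.
-/

set_option autoImplicit false

namespace Pool.Agent.Results.MP_45e720_ag.DiagonalSystemsSuffice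

open MvPolynomial

/-- systems of equations in `P^N` -/
abbrev Equations (N k : ℕ) : Type := Fin k → MvPolynomial (Fin (N + 1)) ℂ

/-- the systems of diagonal equations `∑ j, c_j * y_j ^ m = 0` with coefficients in `D ∪ {0}` -/
def Diagonal (m : ℕ) (D : Set ℂ) (N k : ℕ) (Y : Equations N k) : Prop :=
  ∀ i, ∃ c : Fin (N + 1) → ℂ, (∀ j, c j = 0 ∨ c j ∈ D) ∧ Y i = ∑ j, C (c j) * X j ^ m

/-- the systems of equations `y_p ^ 2 + y_q ^ 2 = 2 y_s ^ 2 + 2 y_t ^ 2` or
`y_p ^ 2 - y_q ^ 2 = a (y_s ^ 2 - y_t ^ 2)` -/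
def FourTerms (N k : ℕ) (Y : Equations N k) : Prop :=
  ∀ i, ∃ p q s t : Fin (N + 1), Y i = X p ^ 2 + X q ^ 2 - 2 * (X s ^ 2 + X t ^ 2) ∨
    ∃ a : ℂ, Y i = X p ^ 2 - X q ^ 2 - C a * (X s ^ 2 - X t ^ 2)

/-- the vectors of homogeneous coordinates of a nonconstant holomorphic map from the complex normed
space `E` to `V(S)` with periods in `L` -/
structure NonconstantMap (E : Type) [NormedAddCommGroup E] [NormedSpace ℂ E] (L : Set E) {n : ℕ}
    (S : Set (MvPolynomial (Fin (n + 1)) ℂ)) (f : E → Fin (n + 1) → ℂ) : Prop where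
  diff : Differentiable ℂ f
  ne : ∀ z, f z ≠ 0
  mem : ∀ z, ∀ p ∈ S, eval (f z) p = 0
  per : ∀ z, ∀ l ∈ L, ∃ b : ℂ, f (z + l) = b • f z
  nonconst : ∃ z w, ∀ b : ℂ, f w ≠ b • f z

/-- the images of all nonconstant holomorphic maps from complex tori to `V(S)` lie in `V(Z)` -/
def ToriIn {n : ℕ} (S Z : Set (MvPolynomial (Fin (n + 1)) ℂ)) : Prop :=
  ∀ (g : ℕ) (L : AddSubgroup (Fin g → ℂ)), DiscreteTopology L →
    Submodule.span ℝ (L : Set (Fin g → ℂ)) = ⊤ →
    ∀ f : (Fin g → ℂ) → Fin (n + 1) → ℂ, NonconstantMap (Fin g → ℂ) L S f →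
      ∀ z, ∀ p ∈ Z, eval (f z) p = 0

/-- all nonconstant entire curves in `V(S)` lie in `V(Z)` -/
def CurvesIn {n : ℕ} (S Z : Set (MvPolynomial (Fin (n + 1)) ℂ)) : Prop :=
  ∀ f : ℂ → Fin (n + 1) → ℂ, NonconstantMap ℂ ∅ S f → ∀ z, ∀ p ∈ Z, eval (f z) p = 0

/-- all holomorphic maps from complex tori to `V(S)` are constant -/
def NoTori {n : ℕ} (S : Set (MvPolynomial (Fin (n + 1)) ℂ)) : Prop :=
  ∀ (g : ℕ) (L : AddSubgroup (Fin g → ℂ)), DiscreteTopology L →
    Submodule.span ℝ (L : Set (Fin g → ℂ)) = ⊤ →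
    ∀ f : (Fin g → ℂ) → Fin (n + 1) → ℂ, ¬ NonconstantMap (Fin g → ℂ) L S f

/-- all entire curves in `V(S)` are constant: `V(S)` is hyperbolic -/
def Hyperbolic {n : ℕ} (S : Set (MvPolynomial (Fin (n + 1)) ℂ)) : Prop :=
  ∀ f : ℂ → Fin (n + 1) → ℂ, ¬ NonconstantMap ℂ ∅ S f

/-- the partial derivatives have no common zeros in `P^N` -/
def Smooth {N : ℕ} (A : MvPolynomial (Fin (N + 1)) ℂ) : Prop :=
  ∀ y : Fin (N + 1) → ℂ, y ≠ 0 → ∃ j, eval y (pderiv j A) ≠ 0

/-- a class of projective varieties which contains all smooth hypersurfaces in `P^N`, `N ≥ 3` (for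
example all projective manifolds, all smooth hypersurfaces, or all projective varieties) -/
structure ContainsHypersurfaces (𝒳 : ∀ n : ℕ, Set (MvPolynomial (Fin (n + 1)) ℂ) → Prop) :
    Prop where
  forms : ∀ (n : ℕ) (S : Set (MvPolynomial (Fin (n + 1)) ℂ)), 𝒳 n S →
    ∀ p ∈ S, ∃ e, p.IsHomogeneous e
  hypersurfaces : ∀ (N e : ℕ) (A : MvPolynomial (Fin (N + 1)) ℂ), 3 ≤ N → A.IsHomogeneous e →
    Smooth A → 𝒳 N {A}

/-- `φ` embeds `V(S)` in `V(Y)`, `V(Z)` is the inverse image of `y_j = 0`, `j ∈ J`, and all nonconstant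
holomorphic maps from complex normed spaces to `V(Y)` come from `V(S)`. -/
structure Embeds (m : ℕ) {n N k : ℕ} (S Z : Set (MvPolynomial (Fin (n + 1)) ℂ))
    (φ : Fin (N + 1) → MvPolynomial (Fin (n + 1)) ℂ) (Y : Equations N k)
    (J : Set (Fin (N + 1))) : Prop where
  mono : ∃ e, 1 ≤ e ∧ (∀ j, (φ j).IsHomogeneous e) ∧
    ∀ α : Fin (n + 1) → ℕ, ∑ i, α i = e → ∃ j, φ j = ∏ i, X i ^ α i
  points : ∀ x : Fin (n + 1) → ℂ, x ≠ 0 →
    ((∀ p ∈ S, eval x p = 0) ↔ ∀ i, eval (fun j => eval x (φ j)) (Y i) = 0)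
  subset : ∀ x : Fin (n + 1) → ℂ, x ≠ 0 →
    ((∀ p ∈ Z, eval x p = 0) ↔ ∀ j ∈ J, eval x (φ j) = 0)
  maps : ∀ (E : Type) [NormedAddCommGroup E] [NormedSpace ℂ E] (L : Set E)
    (f : E → Fin (N + 1) → ℂ), NonconstantMap E L (Set.range Y) f →
    ∃ (ζ : Fin (N + 1) → ℂ) (x : E → Fin (n + 1) → ℂ), (∀ j, ζ j ^ m = 1) ∧
      NonconstantMap E L S x ∧ ∀ z j, f z j = ζ j * eval (x z) (φ j)

/-- the three theorems for the class `𝒴` of systems -/
structure Suffices (m : ℕ) (𝒴 : ∀ N k : ℕ, Equations N k → Prop) : Prop where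
  theorem1 : ∀ (n : ℕ) (S Z : Set (MvPolynomial (Fin (n + 1)) ℂ)),
    (∀ p ∈ S, ∃ e, p.IsHomogeneous e) → (∀ p ∈ Z, ∃ e, p.IsHomogeneous e) →
    ∃ (N k : ℕ) (Y : Equations N k) (φ : Fin (N + 1) → MvPolynomial (Fin (n + 1)) ℂ)
      (J : Set (Fin (N + 1))), 𝒴 N k Y ∧ Embeds m S Z φ Y J ∧
      (Hyperbolic (Set.range Y) ↔ Hyperbolic S) ∧ (NoTori (Set.range Y) ↔ NoTori S) ∧
      (CurvesIn (Set.range Y) (X '' J) ↔ CurvesIn S Z) ∧
      (ToriIn (Set.range Y) (X '' J) ↔ ToriIn S Z)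
  theorem2 : ∀ 𝒳 : ∀ n : ℕ, Set (MvPolynomial (Fin (n + 1)) ℂ) → Prop,
    ContainsHypersurfaces 𝒳 →
    ((∀ (n : ℕ) (S : Set (MvPolynomial (Fin (n + 1)) ℂ)), 𝒳 n S → NoTori S → Hyperbolic S) ↔
      ∀ (N k : ℕ) (Y : Equations N k), 𝒴 N k Y → NoTori (Set.range Y) → Hyperbolic (Set.range Y))
  theorem3 : ∀ 𝒳 : ∀ n : ℕ, Set (MvPolynomial (Fin (n + 1)) ℂ) → Prop,
    ContainsHypersurfaces 𝒳 →
    ((∀ (n : ℕ) (S : Set (MvPolynomial (Fin (n + 1)) ℂ)), 𝒳 n S →
        ∀ Z : Set (MvPolynomial (Fin (n + 1)) ℂ), (∀ p ∈ Z, ∃ e, p.IsHomogeneous e) →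
          (CurvesIn S Z ↔ ToriIn S Z)) ↔
      ∀ (N k : ℕ) (Y : Equations N k) (J : Set (Fin (N + 1))), 𝒴 N k Y →
        (CurvesIn (Set.range Y) (X '' J) ↔ ToriIn (Set.range Y) (X '' J)))

section proof

open Pool.Agent.H441.UA (FEmb vals)
open Pool.Agent.H441.DQ (dform dform_hom)
open Pool.Agent.H441.FT (IsClass exists_fin root_ne maps_lift maps_to maps_of vals_smul vals_diff'
  coord)
open Pool.Agent.N254.SQ (OnTori OnCurves IsForm)

variable {n : ℕ}

/-- the embedding in the form needed here -/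
theorem embeds_of {m N k : ℕ} (hm : m ≠ 0) {S Z : Set (MvPolynomial (Fin (n + 1)) ℂ)}
    {T T' : Finset (MvPolynomial (Fin (n + 1)) ℂ)}
    (hT : ∀ x : Fin (n + 1) → ℂ, (∀ p : T, eval x (p : MvPolynomial (Fin (n + 1)) ℂ) = 0) ↔
        ∀ p ∈ S, eval x p = 0)
    (hT' : ∀ x : Fin (n + 1) → ℂ, (∀ p : T', eval x (p : MvPolynomial (Fin (n + 1)) ℂ) = 0) ↔
        ∀ p ∈ Z, eval x p = 0)
    {φ : Fin (N + 1) → MvPolynomial (Fin (n + 1)) ℂ} {c : Fin k → Fin (N + 1) → ℂ}
    {I J : Set (Fin (N + 1))}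
    (hE : FEmb m (fun p : T => (p : MvPolynomial (Fin (n + 1)) ℂ)) (fun e : Empty => e.elim)
      (fun p : T' => (p : MvPolynomial (Fin (n + 1)) ℂ)) φ c I J) :
    Embeds m S Z φ (fun i => dform m (c i)) J := by
  refine ⟨hE.mono, fun x hx => ?_, fun x hx => ?_, fun E _ _ L f hf => ?_⟩
  · rw [← hT]
    exact hE.pts ℂ (RingHom.id ℂ) x hx
  · rw [← hT']
    exact (hE.onG ℂ (RingHom.id ℂ) x hx).symm
  · obtain ⟨ζ, x, hζ, hxd, hx0, hxF, hfx⟩ := maps_lift hm hE (RingHom.id ℂ) hf.diff hf.ne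
      (fun z i => hf.mem z _ ⟨i, rfl⟩) hf.nonconst
    have hζ0 := root_ne hm hζ
    obtain ⟨e, hsm⟩ := vals_smul hE
    refine ⟨ζ, x, hζ, ⟨hxd, hx0, fun z => (hT (x z)).1 (hxF z), fun z l hl => ?_, ?_⟩, hfx⟩
    · obtain ⟨b, hb⟩ := hf.per z l hl
      refine hE.inj ℂ (RingHom.id ℂ) _ _ b (hx0 _) (funext fun j => ?_)
      have h2 := congrFun hb j
      rw [Pi.smul_apply, smul_eq_mul, hfx, hfx] at h2
      rw [Pi.smul_apply, smul_eq_mul]
      apply mul_left_cancel₀ (hζ0 j)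
      linear_combination h2
    · obtain ⟨z₀, w₀, hnc⟩ := hf.nonconst
      exact ⟨z₀, w₀, fun b hb => hnc (b ^ e) (funext fun j => by
        rw [hfx, hb, hsm, Pi.smul_apply, Pi.smul_apply, smul_eq_mul, smul_eq_mul, hfx]
        ring)⟩

/-- maps to `V(S)` give maps to `V(Y)` -/
theorem map_forward {m N k : ℕ} {S : Set (MvPolynomial (Fin (n + 1)) ℂ)}
    {T : Finset (MvPolynomial (Fin (n + 1)) ℂ)} {γ : Type}
    {G : γ → MvPolynomial (Fin (n + 1)) ℂ}
    (hT : ∀ x : Fin (n + 1) → ℂ, (∀ p : T, eval x (p : MvPolynomial (Fin (n + 1)) ℂ) = 0) ↔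
        ∀ p ∈ S, eval x p = 0)
    {φ : Fin (N + 1) → MvPolynomial (Fin (n + 1)) ℂ} {c : Fin k → Fin (N + 1) → ℂ}
    {I J : Set (Fin (N + 1))}
    (hE : FEmb m (fun p : T => (p : MvPolynomial (Fin (n + 1)) ℂ)) (fun e : Empty => e.elim)
      G φ c I J) {E : Type} [NormedAddCommGroup E] [NormedSpace ℂ E] {L : Set E}
    {f : E → Fin (n + 1) → ℂ} (hf : NonconstantMap E L S f) :
    NonconstantMap E L (Set.range fun i => dform m (c i))
      (fun z => vals (RingHom.id ℂ) φ (f z)) := by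
  obtain ⟨e, hsm⟩ := vals_smul hE
  refine ⟨vals_diff' (RingHom.id ℂ) φ hf.diff, fun z => hE.ne ℂ _ _ (hf.ne z), ?_,
    fun z l hl => ?_, ?_⟩
  · rintro z _ ⟨i, rfl⟩
    exact (hE.pts ℂ (RingHom.id ℂ) (f z) (hf.ne z)).1 ((hT _).2 (hf.mem z)) i
  · obtain ⟨b, hb⟩ := hf.per z l hl
    refine ⟨b ^ e, ?_⟩
    rw [hb, hsm]
  · obtain ⟨z, w, hnc⟩ := hf.nonconst
    refine ⟨z, w, fun b hb => ?_⟩
    obtain ⟨t, ht⟩ := hE.inj ℂ (RingHom.id ℂ) (f w) (f z) b (hf.ne w) hb
    exact hnc t ht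

/-- the complex tori -/
theorem tori_iff {ι γ : Type} {F : ι → MvPolynomial (Fin (n + 1)) ℂ}
    {G : γ → MvPolynomial (Fin (n + 1)) ℂ} {S Z : Set (MvPolynomial (Fin (n + 1)) ℂ)}
    (hS : ∀ x : Fin (n + 1) → ℂ, (∀ i, eval x (F i) = 0) ↔ ∀ p ∈ S, eval x p = 0)
    (hZ : ∀ x : Fin (n + 1) → ℂ, (∀ i, eval x (G i) = 0) ↔ ∀ p ∈ Z, eval x p = 0) :
    ToriIn S Z ↔ ∀ (g : ℕ) (L : AddSubgroup (Fin g → ℂ)), DiscreteTopology L →
      Submodule.span ℝ (L : Set (Fin g → ℂ)) = ⊤ →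
        Pool.Agent.H441.FT.MapsIn (Fin g → ℂ) (L : Set (Fin g → ℂ)) (RingHom.id ℂ) F G := by
  constructor
  · intro h g L h1 h2 f hf hf0 hfF hper hnc z
    exact (hZ (f z)).2 (h g L h1 h2 f ⟨hf, hf0, fun z => (hS (f z)).1 (hfF z), hper, hnc⟩ z)
  · intro h g L h1 h2 f hf z
    exact (hZ (f z)).1 (h g L h1 h2 f hf.diff hf.ne (fun z => (hS (f z)).2 (hf.mem z)) hf.per
      hf.nonconst z)

/-- the entire curves -/
theorem curves_iff {ι γ : Type} {F : ι → MvPolynomial (Fin (n + 1)) ℂ}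
    {G : γ → MvPolynomial (Fin (n + 1)) ℂ} {S Z : Set (MvPolynomial (Fin (n + 1)) ℂ)}
    (hS : ∀ x : Fin (n + 1) → ℂ, (∀ i, eval x (F i) = 0) ↔ ∀ p ∈ S, eval x p = 0)
    (hZ : ∀ x : Fin (n + 1) → ℂ, (∀ i, eval x (G i) = 0) ↔ ∀ p ∈ Z, eval x p = 0) :
    CurvesIn S Z ↔ Pool.Agent.H441.FT.MapsIn ℂ ∅ (RingHom.id ℂ) F G := by
  constructor
  · intro h f hf hf0 hfF hper hnc z
    exact (hZ (f z)).2 (h f ⟨hf, hf0, fun z => (hS (f z)).1 (hfF z), hper, hnc⟩ z)
  · intro h f hf z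
    exact (hZ (f z)).1 (h f hf.diff hf.ne (fun z => (hS (f z)).2 (hf.mem z)) hf.per
      hf.nonconst z)

theorem part_one {m : ℕ} {𝒴 : ∀ N k : ℕ, Equations N k → Prop} (h𝒴 : IsClass m 𝒴)
    (S Z : Set (MvPolynomial (Fin (n + 1)) ℂ)) (hS : ∀ p ∈ S, ∃ e, p.IsHomogeneous e)
    (hZ : ∀ p ∈ Z, ∃ e, p.IsHomogeneous e) :
    ∃ (N k : ℕ) (Y : Equations N k) (φ : Fin (N + 1) → MvPolynomial (Fin (n + 1)) ℂ)
      (J : Set (Fin (N + 1))), 𝒴 N k Y ∧ Embeds m S Z φ Y J ∧
      (Hyperbolic (Set.range Y) ↔ Hyperbolic S) ∧ (NoTori (Set.range Y) ↔ NoTori S) ∧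
      (CurvesIn (Set.range Y) (X '' J) ↔ CurvesIn S Z) ∧
      (ToriIn (Set.range Y) (X '' J) ↔ ToriIn S Z) := by
  classical
  obtain ⟨T, hT, hTS⟩ := exists_fin S
  obtain ⟨T', hT', hTZ⟩ := exists_fin Z
  have hTS2 : ∀ x : Fin (n + 1) → ℂ,
      (∀ p : T, eval x (p : MvPolynomial (Fin (n + 1)) ℂ) = 0) ↔ ∀ p ∈ S, eval x p = 0 :=
    fun x => hTS ℂ x
  have hTZ2 : ∀ x : Fin (n + 1) → ℂ,
      (∀ p : T', eval x (p : MvPolynomial (Fin (n + 1)) ℂ) = 0) ↔ ∀ p ∈ Z, eval x p = 0 :=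
    fun x => hTZ ℂ x
  obtain ⟨N, k, φ, c, I, J, hY, hE⟩ := h𝒴.emb n T Empty T'
    (fun p : T => (p : MvPolynomial (Fin (n + 1)) ℂ)) (fun e : Empty => e.elim)
    (fun p : T' => (p : MvPolynomial (Fin (n + 1)) ℂ)) (fun p => hS p (hT p.2))
    (fun e => e.elim) (fun p => hZ p (hT' p.2))
  have hm0 : m ≠ 0 := by
    have := h𝒴.pos
    omega
  have hrange : ∀ x : Fin (N + 1) → ℂ, (∀ i, eval x (dform m (c i)) = 0) ↔
      ∀ p ∈ Set.range fun i => dform m (c i), eval x p = 0 := by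
    intro x
    simp
  have hcoord : ∀ x : Fin (N + 1) → ℂ, (∀ i : J, eval x (coord ℂ J i) = 0) ↔
      ∀ p ∈ ((X : Fin (N + 1) → MvPolynomial (Fin (N + 1)) ℂ) '' J), eval x p = 0 := by
    intro x
    simp [coord]
  have hemb := embeds_of hm0 hTS2 hTZ2 hE
  refine ⟨N, k, _, φ, J, hY, hemb, ⟨fun h f hf => h _ (map_forward hTS2 hE hf),
      fun h f hf => ?_⟩, ⟨fun h g L h1 h2 f hf => h g L h1 h2 _ (map_forward hTS2 hE hf),
      fun h g L h1 h2 f hf => ?_⟩, ?_, ?_⟩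
  · obtain ⟨ζ, x, -, hx, -⟩ := hemb.maps ℂ ∅ f hf
    exact h x hx
  · obtain ⟨ζ, x, -, hx, -⟩ := hemb.maps (Fin g → ℂ) L f hf
    exact h g L h1 h2 x hx
  · rw [curves_iff hrange hcoord, curves_iff hTS2 hTZ2]
    exact ⟨maps_of hE _, maps_to hm0 hE _⟩
  · rw [tori_iff hrange hcoord, tori_iff hTS2 hTZ2]
    exact ⟨fun h g L h1 h2 => maps_of hE _ (h g L h1 h2),
      fun h g L h1 h2 => maps_to hm0 hE _ (h g L h1 h2)⟩

/-- the library notions -/
theorem hyperbolic_iff (S : Set (MvPolynomial (Fin (n + 1)) ℂ)) :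
    Hyperbolic S ↔ OnCurves S 1 := by
  constructor
  · intro h f hf hf0 hfS
    left
    intro z w
    by_contra hcon
    push Not at hcon
    exact h f ⟨hf, hf0, hfS, fun z l hl => absurd hl (Set.notMem_empty l), z, w, hcon⟩
  · intro h f hf
    obtain ⟨z, w, hnc⟩ := hf.nonconst
    rcases h f hf.diff hf.ne hf.mem with h1 | h1
    · obtain ⟨b, hb⟩ := h1 z w
      exact hnc b hb
    · exact absurd (h1 0) (by rw [map_one]; exact one_ne_zero)

theorem noTori_iff (S : Set (MvPolynomial (Fin (n + 1)) ℂ)) :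
    NoTori S ↔ OnTori S 1 := by
  constructor
  · intro h g L h1 h2 f hf hf0 hfS hper
    left
    intro z w
    by_contra hcon
    push Not at hcon
    exact h g L h1 h2 f ⟨hf, hf0, hfS, hper, z, w, hcon⟩
  · intro h g L h1 h2 f hf
    obtain ⟨z, w, hnc⟩ := hf.nonconst
    rcases h g L h1 h2 f hf.diff hf.ne hf.mem hf.per with h3 | h3
    · obtain ⟨b, hb⟩ := h3 z w
      exact hnc b hb
    · exact absurd (h3 0) (by rw [map_one]; exact one_ne_zero)

theorem curves_on (S : Set (MvPolynomial (Fin (n + 1)) ℂ)) (G : MvPolynomial (Fin (n + 1)) ℂ) :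
    CurvesIn S {G} ↔ OnCurves S G := by
  constructor
  · intro h f hf hf0 hfS
    by_cases hcon : ∀ z w, ∃ c : ℂ, f w = c • f z
    · exact Or.inl hcon
    · right
      push Not at hcon
      exact fun z => h f ⟨hf, hf0, hfS, fun z l hl => absurd hl (Set.notMem_empty l), hcon⟩ z G rfl
  · intro h f hf z p hp
    rw [Set.mem_singleton_iff] at hp
    subst hp
    rcases h f hf.diff hf.ne hf.mem with h1 | h1
    · obtain ⟨z, w, hnc⟩ := hf.nonconst
      obtain ⟨b, hb⟩ := h1 z w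
      exact absurd hb (hnc b)
    · exact h1 z

theorem tori_on (S : Set (MvPolynomial (Fin (n + 1)) ℂ)) (G : MvPolynomial (Fin (n + 1)) ℂ) :
    ToriIn S {G} ↔ OnTori S G := by
  constructor
  · intro h g L h1 h2 f hf hf0 hfS hper
    by_cases hcon : ∀ z w, ∃ c : ℂ, f w = c • f z
    · exact Or.inl hcon
    · right
      push Not at hcon
      exact fun z => h g L h1 h2 f ⟨hf, hf0, hfS, hper, hcon⟩ z G rfl
  · intro h g L h1 h2 f hf z p hp
    rw [Set.mem_singleton_iff] at hp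
    subst hp
    rcases h g L h1 h2 f hf.diff hf.ne hf.mem hf.per with h1 | h1
    · obtain ⟨z, w, hnc⟩ := hf.nonconst
      obtain ⟨b, hb⟩ := h1 z w
      exact absurd hb (hnc b)
    · exact h1 z

/-- smooth hypersurfaces with the same properties -/
theorem part_two {N d : ℕ} (hN : 1 ≤ N) (S : Set (MvPolynomial (Fin (N + 1)) ℂ))
    (hS : ∀ p ∈ S, ∃ e ≤ d, p.IsHomogeneous e) :
    ∃ (M e : ℕ) (A : MvPolynomial (Fin (M + 1)) ℂ), 3 ≤ M ∧ A.IsHomogeneous e ∧ Smooth A ∧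
      (Hyperbolic ({A} : Set (MvPolynomial (Fin (M + 1)) ℂ)) ↔ Hyperbolic S) ∧
      (NoTori ({A} : Set (MvPolynomial (Fin (M + 1)) ℂ)) ↔ NoTori S) ∧
      (Pool.Agent.Results.MP_45e720_ag.SmoothHypersurfacesSuffice.SameSets
        ({A} : Set (MvPolynomial (Fin (M + 1)) ℂ)) →
        Pool.Agent.Results.MP_45e720_ag.SmoothHypersurfacesSuffice.SameSets S) := by
  obtain ⟨D₁, H, -⟩ := Pool.Agent.Results.MP_45e720_ag.SmoothHypersurfacesSuffice.result
  obtain ⟨M, v, hv, H2⟩ := H N (max 3 d) hN (le_max_left _ _)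
  obtain ⟨Q, hQ, hsm, -, -, hon, hsame⟩ := H2 (D₁ M) le_rfl S (by
    intro p hp
    obtain ⟨e, he, hpe⟩ := hS p hp
    exact ⟨e, he.trans (le_max_right _ _), hpe⟩)
  have h1 := hon 1 ⟨0, isHomogeneous_one _ _⟩
  rw [map_one] at h1
  refine ⟨M, _, _, ?_, Pool.Agent.N254.SQ.power_form hQ, hsm, ?_, ?_, hsame.1⟩
  · -- there are at least four monomials
    have h3 : ∀ i : Fin 4, ∃ a, v a = fun j =>
        (if j = 0 then (i : ℕ) else 0) + if j = ⟨1, by omega⟩ then max 3 d - i else 0 := by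
      intro i
      apply hv.surj
      rw [Finset.sum_add_distrib]
      simp
      omega
    choose a ha using h3
    have hinj : Function.Injective a := by
      intro i i' h
      have h4 := congrFun ((ha i).symm.trans (h ▸ ha i')) 0
      simp at h4
      exact Fin.ext h4
    have := Fintype.card_le_of_injective a hinj
    simp at this
    omega
  · rw [hyperbolic_iff, hyperbolic_iff]
    exact h1.2
  · rw [noTori_iff, noTori_iff]
    exact h1.1

/-- nothing happens in `P^0` -/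
theorem zero_map {E : Type} [NormedAddCommGroup E] [NormedSpace ℂ E] {L : Set E}
    {S : Set (MvPolynomial (Fin (0 + 1)) ℂ)} {f : E → Fin (0 + 1) → ℂ}
    (hf : NonconstantMap E L S f) : False := by
  obtain ⟨z, w, hnc⟩ := hf.nonconst
  have h1 : f z 0 ≠ 0 := by
    intro h2
    apply hf.ne z
    funext j
    rw [show j = 0 from Fin.ext (by omega)]
    exact h2
  refine hnc (f w 0 / f z 0) (funext fun j => ?_)
  rw [show j = 0 from Fin.ext (by omega), Pi.smul_apply, smul_eq_mul, div_mul_cancel₀ _ h1]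

theorem suffices_of {m : ℕ} {𝒴 : ∀ N k : ℕ, Equations N k → Prop} (h𝒴 : IsClass m 𝒴) :
    Suffices m 𝒴 := by
  refine ⟨fun _ S Z hS hZ => part_one h𝒴 S Z hS hZ, fun 𝒳 h𝒳 => ⟨fun h N k Y hY => ?_,
    fun h n S hS => ?_⟩, fun 𝒳 h𝒳 => ⟨fun h N k Y J hY => ?_, fun h n S hS Z hZ => ?_⟩⟩
  · rcases Nat.eq_zero_or_pos N with hN | hN
    · subst hN
      exact fun _ f hf => zero_map hf
    · obtain ⟨M, e, A, hM, hA, hsm, h1, h2, -⟩ := part_two (d := m) hN (Set.range Y) (by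
        rintro _ ⟨i, rfl⟩
        exact ⟨m, le_rfl, h𝒴.hom N k Y hY i⟩)
      rw [← h1, ← h2]
      exact h M _ (h𝒳.hypersurfaces M e A hM hA hsm)
  · obtain ⟨N, k, Y, φ, J, hY, -, h1, h2, -⟩ := part_one h𝒴 S ∅ (h𝒳.forms n S hS)
      (fun p hp => absurd hp (Set.notMem_empty p))
    rw [← h1, ← h2]
    exact h N k Y hY
  · rcases Nat.eq_zero_or_pos N with hN | hN
    · subst hN
      exact ⟨fun _ g L _ _ f hf => (zero_map hf).elim, fun _ f hf => (zero_map hf).elim⟩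
    · obtain ⟨M, e, A, hM, hA, hsm, -, -, h3⟩ := part_two (d := m) hN (Set.range Y) (by
        rintro _ ⟨i, rfl⟩
        exact ⟨m, le_rfl, h𝒴.hom N k Y hY i⟩)
      have h4 := h3 (fun G hG => by
        rw [← tori_on, ← curves_on]
        refine (h M _ (h𝒳.hypersurfaces M e A hM hA hsm) {G} ?_).symm
        intro p hp
        rw [Set.mem_singleton_iff] at hp
        rw [hp]
        exact hG)
      have h5 : ∀ j ∈ J, CurvesIn (Set.range Y) {X j} ↔ ToriIn (Set.range Y) {X j} := by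
        intro j _
        rw [curves_on, tori_on]
        exact (h4 (X j) ⟨1, isHomogeneous_X _ _⟩).symm
      constructor
      · rintro h6 g L h1 h2 f hf z _ ⟨j, hj, rfl⟩
        refine (h5 j hj).1 ?_ g L h1 h2 f hf z (X j) rfl
        intro f hf z p hp
        rw [Set.mem_singleton_iff] at hp
        rw [hp]
        exact h6 f hf z _ ⟨j, hj, rfl⟩
      · rintro h6 f hf z _ ⟨j, hj, rfl⟩
        refine (h5 j hj).2 ?_ f hf z (X j) rfl
        intro g L h1 h2 f hf z p hp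
        rw [Set.mem_singleton_iff] at hp
        rw [hp]
        exact h6 g L h1 h2 f hf z _ ⟨j, hj, rfl⟩
  · obtain ⟨N, k, Y, φ, J, hY, -, -, -, h1, h2⟩ := part_one h𝒴 S Z (h𝒳.forms n S hS) hZ
    rw [← h1, ← h2]
    exact h N k Y J hY

end proof

theorem result :
    (∀ m : ℕ, 2 ≤ m → ∀ D : Set ℂ, 1 ∈ D → (∀ x ∈ D, -x ∈ D) → Submodule.span ℚ D = ⊤ →
      Suffices m (Diagonal m D)) ∧
    Suffices 2 FourTerms :=
  ⟨fun _ hm _ hD1 hD2 hD3 => suffices_of (Pool.Agent.H441.FT.isClass_diagonal hm hD1 hD2 hD3),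
    suffices_of Pool.Agent.H441.FT.isClass_four⟩

end Pool.Agent.Results.MP_45e720_ag.DiagonalSystemsSuffice
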