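import Pool.Agent.H918.J.Special

/-!
# Maps from tori, Kobayashi hyperbolicity and degrees of curves for surfaces over an elliptic curve

Let `X = {F = 0}` be an irreducible complex projective surface of general type (it may be singular),
with the generic point `y`, and let `α` be a holomorphic map from `X` to an elliptic curve `ℂ / Λ` which
is given by forms `A` (`WForms`: the composition of `α` with the embedding by `(1 : ℘ : ℘')`), such that
`X` has, for a finite set `B` of points of the elliptic curve, a semistable reduction which is
unramified outside of the fibres over `B` (`HasReduction`; by the theorems of Deligne and Mumford and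
of Arakelov all smooth projective surfaces of general type with a holomorphic map with connected
fibres to an elliptic curve satisfy this), and a form `H` which is not zero on `X` is zero on the
fibres over `B`.

**Theorem.** (I) The following conditions are equivalent (the definitions are those of the library,
`Pool/Graph/R_pool_sql_team_seeded_3997aac3/Q103/SF/Defs2.lean`):

* `KobayashiHyp`: the Kobayashi pseudodistance of `X` separates points;
* `BrodyHyp`: all holomorphic maps from the complex plane to `X` are constant;
* `PicardHyp`: all holomorphic maps from the punctured disc to `X` extend to the disc;
* `NoMero`: all meromorphic maps from the spaces `ℂ ^ g` to `X` are constant;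
* `NoElliptic`: all maps from elliptic curves to `X` are constant (so if all holomorphic maps from
  complex tori to `X` are constant then `X` is Kobayashi hyperbolic);
* `AlgHyp`: for some `A` the degree of every nonconstant map from a curve of genus `g` to `X` is at most
  `A (2 g - 2)` (algebraic hyperbolicity in the sense of Demailly);
* `AllGeneral`: all closed subvarieties of positive dimension, `X` included, are of general type;
* `GeomHyp`: for each pointed curve the maps to `X` with a given value at the marked point are finite
  in number;
* there are no closed curves of geometric genus at most one in `X`.

(II) If the curves of geometric genus at most one in `X` are contained in fibres of `α`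
(`LowInFibres`), then `SpecialSets y`: these curves are finite in number; they are the Zariski closures
of the nonconstant entire curves, of the nonconstant meromorphic images of the spaces `ℂ ^ g` and of the
punctured discs with an essential singularity, and each of them is the image of an elliptic curve; all
other closed subvarieties of positive dimension are of general type; and there is `A` such that the
degree of every nonconstant map from a curve of genus `g` to `X`, with another image, is at most
`A (2 g - 2)`.
-/

set_option autoImplicit false
set_option linter.overlappingInstances false

open FF Pool.Agent.W602.GT Pool.Agent.N154.GG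
open Pool.Agent.H918.SS (ProjVariety HasReduction)
open Pool.Agent.H918.PF (WForms)
open Pool.Agent.H918.AH (LowInFibres)
open Pool.Agent.Q103.SF
open Pool.Agent.H918.AI

namespace Pool.Agent.Results.MP_45e720_ag.FibredTorusMaps

/-- **Maps from tori, Kobayashi hyperbolicity and degrees of curves for surfaces over an elliptic
curve.** See the explanation at the beginning of the file. -/
theorem result (n : ℕ) (ι : Type) (F : ι → MvPolynomial (Fin (n + 1)) ℂ) (K : Type) [Field K]
    [Algebra ℂ K] (y : Fin (n + 1) → K) (Λ : PeriodPair)
    (α : (Fin (n + 1) → ℂ) → ℂ ⧸ Λ.lattice) (A : Fin 3 → MvPolynomial (Fin (n + 1)) ℂ)
    (B : Set (ℂ ⧸ Λ.lattice)) (H : MvPolynomial (Fin (n + 1)) ℂ)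
    (hX : ProjVariety F 2 y) (hK : GeneralType ℂ K 2)
    (hα : HolToTorus (Cone F) Λ α) (hA : WForms F Λ α A) (h0 : val y (A 0) ≠ 0)
    (hB : B.Finite) (hR : HasReduction F α B) (hH : IsForm H) (hy : val y H ≠ 0)
    (hHB : ∀ u ∈ Cone F, α u ∈ B → val u H = 0) :
    List.TFAE [KobayashiHyp y, BrodyHyp y, PicardHyp y, NoMero y, NoElliptic y, AlgHyp y,
      AllGeneral y, GeomHyp y, lowCurves y = ∅] ∧
    (LowInFibres F α → SpecialSets y) :=
  ⟨nine_surface hX hK hα hA h0 hB hR hH hy hHB,
    fun hL => special_surface hX hK hα hA h0 hB hR hH hy hHB hL⟩

end Pool.Agent.Results.MP_45e720_ag.FibredTorusMaps
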