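import Mathlib
import Pool.Agent.H917.G.W4

/-!
MP_45e720_ag, Q1: maps from abelian varieties and hyperbolicity, for projective varieties such that
some symmetric power of the cotangent bundle is generated by global sections, and for all their
closed subsets.
-/

set_option autoImplicit false

namespace Pool.Agent.Results.MP_45e720_ag.GenPowersTori

open MvPolynomial FF Pool.Agent.H917

/-- Let `X` be the projective variety with the homogeneous ideal `p`, such that the `m`-th symmetric
power of the cotangent sheaf of `X` is generated by global sections, for some `m ≥ 1`. Let `V` be a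
closed algebraic subset of `X` (such as `X` itself), with the homogeneous ideal `q`. The following
are equivalent: every holomorphic map from an abelian variety to `V` is constant; every holomorphic
map from the complex plane to `V` is constant (that is, `V` is Kobayashi hyperbolic, by the theorem of
Brody); `V` is algebraically hyperbolic (Demailly): `2 g - 2 ≥ ε deg f` for every nonconstant
morphism `f` from a smooth projective curve of genus `g` to `V`, for some `ε > 0`. -/
theorem result {n : ℕ} (p : Ideal (MvPolynomial (Fin (n + 1)) ℂ)) {m : ℕ} (hm : 1 ≤ m)
    (hg : Generated p m) (q : Ideal (MvPolynomial (Fin (n + 1)) ℂ))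
    (hq : ∀ H ∈ q, ∀ d, homogeneousComponent d H ∈ q) (hpq : p ≤ q) :
    List.TFAE [¬ ∃ g Λ f, AbMap q g Λ f, ¬ ∃ f, EntCurve q f, AlgHyperbolic q] := by
  obtain ⟨N, s, hs⟩ := hg
  have hs' : Gens p m s := ⟨hs⟩
  have h1 := tfae_alg hq (hs'.res hpq) hm
  rw [← linBound_iff]
  tfae_have 1 ↔ 2 := h1.out 3 1
  tfae_have 1 ↔ 3 := h1.out 3 4
  tfae_finish

end Pool.Agent.Results.MP_45e720_ag.GenPowersTori
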