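import Pool.Agent.H910.Cf.Cyw

/-!
# Meromorphic maps from affine spaces and tori to varieties with ramified maps to the spaces of the
binary forms

Let `X` be a complex projective variety, of arbitrary dimension and with arbitrary singularities, with
the function field `K` and the generic point `x` (homogeneous coordinates in `K`; `coords ℂ x = ⊤`
says that their ratios generate `K`). `P^(n + 1)` is the space of the binary forms `y` of degree
`n + 1`. A rational map `y` from `X` to this space, with image not contained in the discriminant
hypersurface, is *ramified* (`RamP`) if there are distinct numbers `a i` and weights `μ i ≤ M`, `c i`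
and `cD` with `(n + 1) (∑ c i + 2 n cD) + 2 M < ∑ μ i`, such that at all places of the points of `X`
(with coordinates in a field extension of `ℂ`, outside of a proper closed subset) the orders of
contact `s i` of the image with the hyperplanes of the forms which vanish at `(1 : a i)` and `t` with
the discriminant hypersurface satisfy one of the following conditions: `t = 0` and each `s i` is zero
or at least `M / (M - μ i)`; or `∑ c i s i + cD t ≥ M`.

`BinaryClass x`: each closed subvariety `Z` of `X` of dimension at least two has a generically finite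
ramified map; or `Z` is of general type and has finitely many ramified maps such that the image of `Z`
in the product has dimension at least `dim Z - 1`.

**Theorem.** (I) For all `X` of this class, of any dimension: the closed curves of geometric genus at
most one in `X` are finite in number. The Zariski closure of the image of each nonconstant meromorphic
map from a space `ℂ ^ g` to `X` (for instance, of each nonconstant holomorphic map from a complex
torus or from `ℂ`) is one of these curves. Each of these curves is the Zariski closure of an entire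
curve and the image of an elliptic curve. All other closed subvarieties of positive dimension are of
general type, and the degrees of the maps from curves of genus `g` are at most `A (2 g - 2)`, or the
image is one of these curves. The following are equivalent: `X` is Kobayashi hyperbolic; `X` is Brody
hyperbolic; all meromorphic maps from the spaces `ℂ ^ g` to `X` are constant; all maps from elliptic
curves to `X` are constant; all closed subvarieties of positive dimension are of general type; `X` is
algebraically hyperbolic; `X` is geometrically hyperbolic; there are no closed curves of geometric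
genus at most one in `X`. So if all holomorphic maps from complex tori to `X` are constant then `X` is
Kobayashi hyperbolic.

(II) Surfaces with a generically finite ramified map, and surfaces of general type with a nonconstant
ramified map, belong to the class (`RamSurface`).

(III) Without a condition for the subvarieties of `X`: if there are finitely many ramified maps from
`X` such that the map to the product is generically finite, then there is a proper closed subset of
`X` which contains the images of all holomorphic maps from the punctured disc to `X` with an essential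
singularity; and the same is true for the nonconstant entire curves and for the nonconstant
meromorphic maps from the spaces `ℂ ^ g` to `X`.

(IV) Let `a i`, `i ≤ r`, be distinct numbers, `1 ≤ n`, `n + 1 ≤ r` and `n + r + 2 < m (r - 1)`, let
`Y(x) = (Y 0 (x), ..., Y (n + 1) (x))` be forms of degree `m` in `x 0, ..., x r`, and let `W` be the
projective variety with the equations `Y(x) (1 : a i) = x i ^ m` and
`disc Y(x) = x (r + 1) ^ (2 n m)`. The entire curves in `W` and the nonconstant meromorphic maps from
the spaces `ℂ ^ g` to `W` are contained in the union of the coordinate hyperplanes (`x` is the generic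
point of an irreducible closed subvariety of `W` which is not contained in a coordinate hyperplane).

(V) Let `a i`, `i ≤ n + 1`, be distinct numbers, `1 ≤ n` and `2 n + 3 < n m`. Let `Y j` be the forms
of degree `m` in `x 0, ..., x (n + 1)` such that `Y(x) (1 : a i) = x i ^ m`. For each `s ≥ n - 1`
there are invertible matrices `σ 0, ..., σ s` such that all irreducible closed subvarieties of the
complete intersection `X_σ` of dimension `n + 1` in `P^(n + 2 + s)` with the equations
`disc Y(σ l x) = (w l) ^ (2 n m)`, `l = 0, ..., s`, belong to the class; and if `s ≥ n` then they are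
all Kobayashi hyperbolic.

`KobayashiHyp`, `BrodyHyp`, `NoMero`, `NoElliptic`, `AllGeneral`, `AlgHyp`, `GeomHyp` :
`Pool/Graph/R_pool_sql_team_seeded_3997aac3/Q103/SF/Defs2.lean`; `lowCurves` :
`Pool/Graph/R_pool_sql_team_seeded_3997aac3/Q103/SF/Defs.lean`; `PseudoPicard`, `PseudoAbelian`,
`MeroMap` : `Pool/Graph/R_seed8/Y221/PD/Defs.lean`; `EntireCurve`, `PseudoBrody` :
`Pool/Graph/R_seed8/Y221/BD/Defs.lean`; `BinaryClass`, `CurveSets2` : `Pool/Agent/H910/Cf/Bcl.lean`;
`CurveSets`, `RamSurface` : `Pool/Agent/H910/Cf/Sst.lean`; `RamP` : `Pool/Agent/H910/Cf/Prj.lean`;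
`Ram`, `Gen` : `Pool/Agent/H910/Cf/Defs.lean`; `Covering` : `Pool/Agent/H910/Cf/Stm.lean`;
`OnCyclic` : `Pool/Agent/H910/Cf/Pcv.lean`; `OnFib` : `Pool/Agent/H910/Cf/Fib.lean`; `hyp`, `dsc` :
`Pool/Agent/H910/Vf/Defs.lean`.
-/

set_option autoImplicit false
set_option linter.overlappingInstances false

open FF Pool.Agent.H910.Cf
open Pool.Agent.W602.GT (coords IsForm GeneralType val)
open Pool.Agent.Y221.PD (PseudoPicard PseudoAbelian MeroMap)
open Pool.Agent.Y221.BD (EntireCurve PseudoBrody)
open Pool.Agent.Q103.SF (lowCurves KobayashiHyp BrodyHyp NoMero NoElliptic AllGeneral AlgHyp GeomHyp)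
open Pool.Agent.H910.Vf (hyp dsc)

namespace Pool.Agent.Results.MP_45e720_ag.ManyMapsToBinaryForms

/-- **Maps from tori to varieties with ramified maps to the spaces of the binary forms.** See the
explanation at the beginning of the file. -/
theorem result :
    (∀ (M : ℕ) (K : Type) [Field K] [Algebra ℂ K] (x : Fin (M + 1) → K), x ≠ 0 →
      coords ℂ x = ⊤ → BinaryClass x → CurveSets2 x ∧
        List.TFAE [KobayashiHyp x, BrodyHyp x, NoMero x, NoElliptic x, AllGeneral x, AlgHyp x,
          GeomHyp x, lowCurves x = ∅]) ∧
    (∀ (M : ℕ) (K : Type) [Field K] [Algebra ℂ K] (x : Fin (M + 1) → K), RamSurface x →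
      BinaryClass x) ∧
    (∀ (M : ℕ) (K : Type) [Field K] [Algebra ℂ K] (x : Fin (M + 1) → K), x ≠ 0 →
      coords ℂ x = ⊤ → ∀ (r : ℕ) (n : Fin r → ℕ) (y : ∀ l, Fin (n l + 2) → K),
        (∀ l, RamP ℂ x (y l)) → Algebra.IsAlgebraic ↥(⨆ l, coords ℂ (y l)) K →
        PseudoPicard x ∧ PseudoBrody x ∧ PseudoAbelian x) ∧
    (∀ (n r m : ℕ) (a : Fin (r + 1) → ℂ) (Y : Fin (n + 2) → MvPolynomial (Fin (r + 1)) ℂ),
      Covering m a Y → 1 ≤ n → n + 1 ≤ r → n + r + 2 < m * (r - 1) →
      ∀ (K : Type) [Field K] [Algebra ℂ K] (x : Fin (r + 2) → K), OnCyclic m a Y x →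
        (∀ f, EntireCurve x f → ∀ t, ∏ i, f i t = 0) ∧
        ∀ g u, MeroMap x g u → ∀ t, ∏ i, u i t = 0) ∧
    (∀ (n m : ℕ) (a : Fin (n + 2) → ℂ), Function.Injective a → 1 ≤ n → 2 * n + 3 < n * m →
      ∀ s : ℕ, n ≤ s + 1 → ∃ Y : Fin (n + 2) → MvPolynomial (Fin (n + 2)) ℂ,
        (∀ j, (Y j).IsHomogeneous m) ∧
        (∀ i, MvPolynomial.aeval Y (hyp ℂ (n + 1) 1 (a i)) = MvPolynomial.X i ^ m) ∧
        ∃ σ : Fin (s + 1) → Matrix (Fin (n + 2)) (Fin (n + 2)) ℂ, (∀ l, (σ l).det ≠ 0) ∧
          ∀ (K : Type) [Field K] [Algebra ℂ K] (x : Fin (n + 2 + s + 1) → K), x ≠ 0 →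
            coords ℂ x = ⊤ → OnFib m Y σ x → BinaryClass x ∧ (n ≤ s → KobayashiHyp x)) := by
  have key : ∀ (M : ℕ) (K : Type) [Field K] [Algebra ℂ K] (x : Fin (M + 1) → K), x ≠ 0 →
      coords ℂ x = ⊤ → Hered 1 x → KobayashiHyp x := by
    intro M K _ _ x hx hgen h
    have h0 := h.hyp hx hgen
    have h1 := ((Hered.mono (by norm_num) h : Hered 2 x).binary.curveSets hx
      hgen).toCurveSets.tfae
    exact (h1.out 0 5).2 h0
  refine ⟨fun M K _ _ x hx hgen h => ⟨h.curveSets hx hgen, (h.curveSets hx hgen).tfae⟩,
    fun M K _ _ x h => h.binary,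
    fun M K _ _ x hx hgen r n y hy halg => pseudo_all hx hgen hy halg,
    fun n r m a Y hY hn hr hm K _ _ x hx => cyc_ent hm hY hr hn hx, fun n m a ha hn hm s hs => ?_⟩
  by_cases h : n ≤ s
  · obtain ⟨Y, hY1, hY2, σ, hσ, hall⟩ := fib_class (d := 1) (s := s) hn hm le_rfl (by omega) ha
    exact ⟨Y, hY1, hY2, σ, hσ, fun K _ _ x hx hgen hf =>
      ⟨(Hered.mono (by norm_num) (hall K x hf) : Hered 2 x).binary,
        fun _ => key _ K x hx hgen (hall K x hf)⟩⟩
  · obtain ⟨Y, hY1, hY2, σ, hσ, hall⟩ := fib_class (d := 2) (s := s) hn hm (by norm_num)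
      (by omega) ha
    exact ⟨Y, hY1, hY2, σ, hσ, fun K _ _ x hx hgen hf => ⟨(hall K x hf).binary,
      fun h' => (h h').elim⟩⟩

end Pool.Agent.Results.MP_45e720_ag.ManyMapsToBinaryForms
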